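import Mathlib
import Pool.Agent.R863.Section

/-!
# A plane curve parameterizable by cubics which is not a Cremona image of a monoid curve

Points of projective spaces are given by nonzero vectors up to nonzero factors; a subset of the
plane is given by its cone of representing vectors. `ev F x` is the vector of the values at `x` of
the polynomials of the tuple `F`.
-/

set_option autoImplicit false

open MvPolynomial

namespace Pool.Agent.Results.MP_87683a_ag.NotCremona

open Pool.Agent.R863.Forms Pool.Agent.R863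

variable {K : Type*} [Field K]

/-- `{E = 0}` is a plane curve: `E` is homogeneous and irreducible -/
def IsCurve (E : MvPolynomial (Fin 3) K) : Prop := Irreducible E ∧ ∃ d, E.IsHomogeneous d

/-- The triple `u` of binary forms without a common zero on `ℙ¹` (that is, over an algebraically
closed field, without a common factor) gives a map `ℙ¹ → {E = 0}` which is inverse to the rational
map `ψ = (F 0 : F 1) : {E = 0} ⇢ ℙ¹`: `ψ ∘ u = id` and `u ∘ ψ = id`. -/
structure IsInverse (E : MvPolynomial (Fin 3) K) (F : Fin 2 → MvPolynomial (Fin 3) K)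
    (u : Fin 3 → MvPolynomial (Fin 2) K) : Prop where
  hom : ∃ n, ∀ i, (u i).IsHomogeneous n
  base_free : ∀ t, t ≠ 0 → ev u t ≠ 0
  on_curve : ∀ t, eval (ev u t) E = 0
  defined : ∃ t, ev F (ev u t) ≠ 0
  left_inv : ∀ t, ev F (ev u t) 0 * t 1 = ev F (ev u t) 1 * t 0
  right_inv : ∀ x, eval x E = 0 → ∀ i j, x i * ev u (ev F x) j = x j * ev u (ev F x) i

/-- the curve `{E = 0}` is parameterizable by a pair `F 0, F 1` of forms of degree `d` without
common factor (by lines for `d = 1`, by cubics for `d = 3`) -/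
def ParamBy (d : ℕ) (E : MvPolynomial (Fin 3) K) : Prop :=
  ∃ F : Fin 2 → MvPolynomial (Fin 3) K, (∀ i, (F i).IsHomogeneous d) ∧
    (∀ g, g ∣ F 0 → g ∣ F 1 → IsUnit g) ∧ ∃ u, IsInverse E F u

/-- the zero locus -/
def V (E : MvPolynomial (Fin 3) K) : Set (Fin 3 → K) := {x | eval x E = 0}

/-- the closure in the Zariski topology of the projective plane -/
def zariskiClosure (S : Set (Fin 3 → K)) : Set (Fin 3 → K) :=
  {x | ∀ (H : MvPolynomial (Fin 3) K) (d : ℕ), H.IsHomogeneous d → (∀ y ∈ S, eval y H = 0) →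
    eval x H = 0}

/-- the curve `{E = 0}` is singular at `x` -/
def SingularAt (E : MvPolynomial (Fin 3) K) (x : Fin 3 → K) : Prop :=
  eval x E = 0 ∧ ∀ i, eval x (pderiv i E) = 0

/-- the rational maps `Λ = (G 0 : G 1 : G 2)` and `(F 0 : F 1 : F 2)` of the plane to itself are
inverse to each other -/
structure IsCremonaPair (G F : Fin 3 → MvPolynomial (Fin 3) K) : Prop where
  homG : ∃ m, ∀ i, (G i).IsHomogeneous m
  homF : ∃ m, ∀ i, (F i).IsHomogeneous m
  FG : ∃ h, h ≠ 0 ∧ ∀ i, aeval G (F i) = h * X i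
  GF : ∃ k, k ≠ 0 ∧ ∀ i, aeval F (G i) = k * X i

/-- the curve `{E = 0}` belongs to the set `𝒮`: it is the closure of `Λ(C₀)` for a birational map
`Λ = (G 0 : G 1 : G 2)` whose inverse `(F 0 : F 1 : F 2)` is given by cubic forms and a curve
`C₀ = {E₀ = 0}` which is parameterizable by lines and singular at `(0 : 0 : 1)` -/
def InS (E : MvPolynomial (Fin 3) K) : Prop :=
  ∃ G F : Fin 3 → MvPolynomial (Fin 3) K, IsCremonaPair G F ∧ (∀ i, (F i).IsHomogeneous 3) ∧
    ∃ E₀ : MvPolynomial (Fin 3) K, IsCurve E₀ ∧ ParamBy 1 E₀ ∧ SingularAt E₀ ![0, 0, 1] ∧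
      zariskiClosure (ev G '' V E₀) = V E

/-! ### The curve is parameterizable by cubics -/

lemma isUnit_eval {σ : Type*} {g : MvPolynomial σ K} (hg : IsUnit g) (x : σ → K) :
    eval x g ≠ 0 := (hg.map (eval x)).ne_zero

lemma A_relprime [CharZero K] (g : MvPolynomial (Fin 3) K) (h0 : g ∣ Section.A 0)
    (h1 : g ∣ Section.A 1) : IsUnit g := by
  have hX : ∀ i j : Fin 3, i ≠ j → (X i ^ 3 - X j ^ 3 : MvPolynomial (Fin 3) K) ≠ 0 := by
    intro i j hij h
    have := congrArg (eval (Pi.single i 1)) h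
    simp [Pi.single_apply, hij.symm] at this
  have hA0 : (Section.A 0 : MvPolynomial (Fin 3) K) = X 0 ^ 3 - X 1 ^ 3 := rfl
  have hA1 : (Section.A 1 : MvPolynomial (Fin 3) K) = X 1 ^ 3 - X 2 ^ 3 := rfl
  have h2 : g ∣ X 0 ^ 3 - X 2 ^ 3 := by
    have := dvd_add h0 h1
    rw [hA0, hA1] at this
    convert this using 1
    ring
  rw [hA0] at h0
  rw [hA1] at h1
  have hdeg : ∀ i j l : Fin 3, i ≠ j → l ≠ i → l ≠ j → g ∣ X i ^ 3 - X j ^ 3 →
      degreeOf l g = 0 := by
    intro i j l hij hli hlj ⟨r, hr⟩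
    have hne := hX i j hij
    have hg : g ≠ 0 := by
      rintro rfl
      rw [zero_mul] at hr
      exact hne hr
    have hr0 : r ≠ 0 := by
      rintro rfl
      rw [mul_zero] at hr
      exact hne hr
    have h3 := degreeOf_mul_eq (n := l) hg hr0
    rw [← hr] at h3
    have h4 : degreeOf l (X i ^ 3 - X j ^ 3 : MvPolynomial (Fin 3) K) ≤ 0 := by
      refine (degreeOf_sub_le l _ _).trans ?_
      refine max_le ?_ ?_
      · refine (degreeOf_pow_le l _ 3).trans ?_
        rw [degreeOf_X_of_ne hli]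
      · refine (degreeOf_pow_le l _ 3).trans ?_
        rw [degreeOf_X_of_ne hlj]
    omega
  have hg0 := hdeg 1 2 0 (by decide) (by decide) (by decide) h1
  have hg1 := hdeg 0 2 1 (by decide) (by decide) (by decide) h2
  have hg2 := hdeg 0 1 2 (by decide) (by decide) (by decide) h0
  have htot : g.totalDegree = 0 := by
    rw [totalDegree_eq_zero_iff]
    intro m hm i
    have : m i ≤ degreeOf i g := monomial_le_degreeOf i hm
    fin_cases i
    · simp only [Fin.zero_eta] at this ⊢; omega
    · simp only [Fin.mk_one] at this ⊢; omega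
    · simp only [Fin.reduceFinMk] at this ⊢; omega
  rw [totalDegree_eq_zero_iff_eq_C] at htot
  rw [htot]
  refine (isUnit_iff_ne_zero.2 fun h => ?_).map C
  rw [h, C_0] at htot
  rw [htot, zero_dvd_iff] at h0
  exact hX 0 1 (by decide) h0

lemma paramBy_three [IsAlgClosed K] [CharZero K] {E : MvPolynomial (Fin 3) K}
    (hEu : aeval (Section.u : Fin 3 → MvPolynomial (Fin 2) K) E = 0)
    (hgen : ∀ P, aeval (Section.u : Fin 3 → MvPolynomial (Fin 2) K) P = 0 → E ∣ P) :
    ParamBy 3 E := by
  refine ⟨Section.A, Section.A_hom, A_relprime, Section.u, ⟨8, Section.u_hom⟩, Section.nz, ?_, ?_,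
    Section.A_u, ?_⟩
  · intro t
    rw [← eval_aeval, hEu, map_zero]
  · refine ⟨![0, 1], fun h => ?_⟩
    have := congrFun h 1
    rw [ev_apply, Section.eval_A1, ev_apply, ev_apply, Section.eval_u1, Section.eval_u2] at this
    simp [Section.v1, Section.v2] at this
    norm_num at this
  · intro x hx i j
    have hdvd : E ∣ X i * aeval (Section.A : Fin 2 → MvPolynomial (Fin 3) K)
        (Section.u j : MvPolynomial (Fin 2) K) -
        X j * aeval (Section.A : Fin 2 → MvPolynomial (Fin 3) K)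
        (Section.u i : MvPolynomial (Fin 2) K) := by
      apply hgen
      apply MvPolynomial.funext
      intro τ
      obtain ⟨a, ha⟩ := Section.hmul τ
      rw [map_zero, eval_aeval]
      simp only [map_sub, map_mul, eval_X, eval_aeval]
      rw [ha, eval_smul (Section.u_hom j), eval_smul (Section.u_hom i)]
      simp only [ev_apply]
      ring
    obtain ⟨Q, hQ⟩ := hdvd
    have h1 := congrArg (eval x) hQ
    rw [map_mul, hx, zero_mul] at h1
    simp only [map_sub, map_mul, eval_X, eval_aeval] at h1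
    simp only [ev_apply]
    linear_combination h1

/-! ### The curve does not belong to `𝒮` -/

lemma eval_res (g : Fin 3 → Polynomial K) (P : MvPolynomial (Fin 3) K) (s : K) :
    (aeval g P).eval s = eval (fun i => (g i).eval s) P := by
  rw [aeval_def, eval₂_eq', Polynomial.eval_finsetSum, eval_eq']
  refine Finset.sum_congr rfl fun m _ => ?_
  rw [Polynomial.eval_mul, Polynomial.eval_prod]
  congr 1
  · simp
  · refine Finset.prod_congr rfl fun i _ => ?_
    rw [Polynomial.eval_pow]

lemma eval_resU (P : MvPolynomial (Fin 3) K) (s : K) :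
    (aeval Section.U P).eval s = eval (ev Section.u ![s, 1]) P := by
  rw [eval_res]
  congr 2
  ext i
  rw [Section.eval_U]
  rfl

/-- forms of degree 1 are additive -/
lemma lin_add {φ : MvPolynomial (Fin 3) K} (h : φ.IsHomogeneous 1) (x y : Fin 3 → K) :
    eval (x + y) φ = eval x φ + eval y φ := by
  have h1 : φ ∈ Submodule.span K (Set.range (X : Fin 3 → MvPolynomial (Fin 3) K)) := by
    rw [← homogeneousSubmodule_one_eq_span_X]
    exact h
  refine Submodule.span_induction (p := fun φ _ => eval (x + y) φ = eval x φ + eval y φ)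
    ?_ ?_ ?_ ?_ h1
  · rintro _ ⟨i, rfl⟩
    simp
  · simp
  · intro a b _ _ ha hb
    rw [map_add, map_add, map_add, ha, hb]
    ring
  · intro c a _ ha
    rw [smul_eval, smul_eval, smul_eval, ha]
    ring

lemma lin_smul {φ : MvPolynomial (Fin 3) K} (h : φ.IsHomogeneous 1) (c : K) (x : Fin 3 → K) :
    eval (c • x) φ = c * eval x φ := by
  rw [eval_smul h, pow_one]

/-- a solution of a Fermat type cubic equation in polynomials is constant -/
lemma fermat [CharZero K] {a b c : Polynomial K} (ha : a ≠ 0) (hb : b ≠ 0) (hc : c ≠ 0)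
    {r s t : K} (hr : r ≠ 0) (hs : s ≠ 0) (ht : t ≠ 0)
    (h : Polynomial.C r * a ^ 3 + Polynomial.C s * b ^ 3 + Polynomial.C t * c ^ 3 = 0) :
    ∃ (D : Polynomial K) (x y z : K), a = D * Polynomial.C x ∧ b = D * Polynomial.C y ∧
      c = D * Polynomial.C z := by
  classical
  obtain ⟨a', b', ha', hb', hab⟩ := extract_gcd a b
  set D := gcd a b with hD
  have hcop : IsCoprime a' b' := (gcd_isUnit_iff a' b').1 hab
  have hD0 : D ≠ 0 := by
    intro h0
    rw [h0, zero_mul] at ha'
    exact ha ha'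
  have hdvd : D ^ 3 ∣ c ^ 3 := by
    refine ⟨-(Polynomial.C t⁻¹ * (Polynomial.C r * a' ^ 3 + Polynomial.C s * b' ^ 3)), ?_⟩
    rw [ha', hb'] at h
    have h1 : (Polynomial.C t⁻¹ : Polynomial K) * Polynomial.C t = 1 := by
      rw [← Polynomial.C_mul, inv_mul_cancel₀ ht, Polynomial.C_1]
    linear_combination (-(c ^ 3)) * h1 + Polynomial.C t⁻¹ * h
  obtain ⟨c', hc'⟩ := (UniqueFactorizationMonoid.pow_dvd_pow_iff_dvd (by norm_num : (3 : ℕ) ≠ 0)).1 hdvd
  have ha0 : a' ≠ 0 := by rintro rfl; rw [mul_zero] at ha'; exact ha ha'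
  have hb0 : b' ≠ 0 := by rintro rfl; rw [mul_zero] at hb'; exact hb hb'
  have hc0 : c' ≠ 0 := by rintro rfl; rw [mul_zero] at hc'; exact hc hc'
  have hrel : Polynomial.C r * a' ^ 3 + Polynomial.C s * b' ^ 3 + Polynomial.C t * c' ^ 3 = 0 := by
    rw [ha', hb', hc'] at h
    apply mul_left_cancel₀ (pow_ne_zero 3 hD0)
    linear_combination h
  have h3 : ((3 : ℕ) : K) ≠ 0 := by norm_num
  obtain ⟨e1, e2, e3⟩ := Polynomial.flt_catalan (p := 3) (q := 3) (r := 3) (by norm_num)
    (by norm_num) (by norm_num) (by norm_num) h3 h3 h3 ha0 hb0 hc0 hcop hr hs ht hrel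
  obtain ⟨x, hx⟩ := Polynomial.natDegree_eq_zero.1 e1
  obtain ⟨y, hy⟩ := Polynomial.natDegree_eq_zero.1 e2
  obtain ⟨z, hz⟩ := Polynomial.natDegree_eq_zero.1 e3
  exact ⟨D, x, y, z, by rw [hx]; exact ha', by rw [hy]; exact hb', by rw [hz]; exact hc'⟩

/-- a net of forms which contains the pencil `A` does not define a birational map -/
lemma pencil_not_in_net [CharZero K] {G F : Fin 3 → MvPolynomial (Fin 3) K}
    (hGF : IsCremonaPair G F) (m₁ m₂ : MvPolynomial (Fin 3) K) (h₁ : m₁.IsHomogeneous 1)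
    (h₂ : m₂.IsHomogeneous 1) (hm₁ : m₁ ≠ 0) (hm₂ : m₂ ≠ 0) (hm₃ : m₁ + m₂ ≠ 0)
    (hrel : ∀ p, (eval p (G 0) ^ 3 - eval p (G 1) ^ 3) * eval p m₂ =
      (eval p (G 1) ^ 3 - eval p (G 2) ^ 3) * eval p m₁) : False := by
  classical
  obtain ⟨⟨m, hG⟩, ⟨f, hF⟩, ⟨h, hh0, hFG⟩, ⟨k, hk0, hGF'⟩⟩ := hGF
  have hFG2 : ∀ p, ev F (ev G p) = eval p h • p := by
    intro p
    ext i
    rw [ev_apply, ← eval_aeval, hFG, map_mul, eval_X]
    rfl
  have hGne : ∀ i, G i ≠ 0 := by
    intro i h0
    have h1 := hGF' i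
    rw [h0, map_zero] at h1
    exact mul_ne_zero hk0 (X_ne_zero i) h1.symm
  -- the point `p₀`
  obtain ⟨p₀, hp₀⟩ : ∃ p₀, eval p₀ (h * m₁ * m₂ * (m₁ + m₂) * G 0 * G 1 * G 2) ≠ 0 := by
    by_contra hall
    push Not at hall
    have h0 : h * m₁ * m₂ * (m₁ + m₂) * G 0 * G 1 * G 2 = 0 := by
      apply MvPolynomial.funext
      intro x
      rw [hall, map_zero]
    exact mul_ne_zero (mul_ne_zero (mul_ne_zero (mul_ne_zero (mul_ne_zero (mul_ne_zero hh0 hm₁)
      hm₂) hm₃) (hGne 0)) (hGne 1)) (hGne 2) h0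
  simp only [map_mul, map_add] at hp₀
  obtain ⟨hp₁, hG2⟩ := mul_ne_zero_iff.1 hp₀
  obtain ⟨hp₂, hG1⟩ := mul_ne_zero_iff.1 hp₁
  obtain ⟨hp₃, hG0⟩ := mul_ne_zero_iff.1 hp₂
  obtain ⟨hp₄, hm12⟩ := mul_ne_zero_iff.1 hp₃
  obtain ⟨hp₅, hm2⟩ := mul_ne_zero_iff.1 hp₄
  obtain ⟨hh, hm1⟩ := mul_ne_zero_iff.1 hp₅
  -- the direction
  let ℓ : (Fin 3 → K) →ₗ[K] (Fin 2 → K) :=
    { toFun := fun x => ![eval x m₁, eval x m₂]
      map_add' := by
        intro x y
        ext i
        fin_cases i
        · exact lin_add h₁ x y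
        · exact lin_add h₂ x y
      map_smul' := by
        intro c x
        ext i
        fin_cases i
        · exact lin_smul h₁ c x
        · exact lin_smul h₂ c x }
  have hker : LinearMap.ker ℓ ≠ ⊥ := LinearMap.ker_ne_bot_of_finrank_lt (by simp)
  obtain ⟨q, hq, hq0⟩ := (Submodule.ne_bot_iff _).1 hker
  have hq1 : eval q m₁ = 0 := congrFun (LinearMap.mem_ker.1 hq) 0
  have hq2 : eval q m₂ = 0 := congrFun (LinearMap.mem_ker.1 hq) 1
  have hl1 : ∀ z : K, eval (p₀ + z • q) m₁ = eval p₀ m₁ := by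
    intro z
    rw [lin_add h₁, lin_smul h₁, hq1, mul_zero, add_zero]
  have hl2 : ∀ z : K, eval (p₀ + z • q) m₂ = eval p₀ m₂ := by
    intro z
    rw [lin_add h₂, lin_smul h₂, hq2, mul_zero, add_zero]
  -- restrict to the line
  let ln : Fin 3 → Polynomial K := fun j => Polynomial.C (p₀ j) + Polynomial.X * Polynomial.C (q j)
  have hln : ∀ (P : MvPolynomial (Fin 3) K) (z : K),
      (aeval ln P).eval z = eval (p₀ + z • q) P := by
    intro P z
    rw [eval_res]
    congr 2
    ext j
    simp [ln]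
    ring
  have hline0 : ∀ P : MvPolynomial (Fin 3) K, eval p₀ P ≠ 0 → aeval ln P ≠ 0 := by
    intro P hP h0
    have := hln P 0
    rw [h0, Polynomial.eval_zero, zero_smul, add_zero] at this
    exact hP this.symm
  have hfer : Polynomial.C (eval p₀ m₂) * aeval ln (G 0) ^ 3 +
      Polynomial.C (-(eval p₀ m₁ + eval p₀ m₂)) * aeval ln (G 1) ^ 3 +
      Polynomial.C (eval p₀ m₁) * aeval ln (G 2) ^ 3 = 0 := by
    apply Polynomial.funext
    intro z
    simp only [Polynomial.eval_add, Polynomial.eval_mul, Polynomial.eval_C, Polynomial.eval_pow,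
      Polynomial.eval_zero, hln]
    have := hrel (p₀ + z • q)
    rw [hl1, hl2] at this
    linear_combination this
  obtain ⟨D, a, b, c, ha, hb, hc⟩ := fermat (hline0 _ hG0) (hline0 _ hG1) (hline0 _ hG2) hm2
    (neg_ne_zero.2 hm12) hm1 hfer
  have hGline : ∀ z : K, ev G (p₀ + z • q) = D.eval z • ![a, b, c] := by
    intro z
    ext i
    fin_cases i
    · show eval (p₀ + z • q) (G 0) = D.eval z * a
      rw [← hln, ha, Polynomial.eval_mul, Polynomial.eval_C]
    · show eval (p₀ + z • q) (G 1) = D.eval z * b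
      rw [← hln, hb, Polynomial.eval_mul, Polynomial.eval_C]
    · show eval (p₀ + z • q) (G 2) = D.eval z * c
      rw [← hln, hc, Polynomial.eval_mul, Polynomial.eval_C]
  have hFline : ∀ z : K, eval (p₀ + z • q) h • (p₀ + z • q) =
      (D.eval z) ^ f • ev F ![a, b, c] := by
    intro z
    rw [← hFG2, hGline, ev_smul hF]
  -- a second good point
  obtain ⟨z₁, hz0, hz1⟩ : ∃ z₁ : K, z₁ ≠ 0 ∧ eval (p₀ + z₁ • q) h ≠ 0 := by
    have hp := hline0 h hh
    have hfin : ({0} ∪ {z | (aeval ln h).IsRoot z} : Set K).Finite :=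
      (Set.finite_singleton _).union (Polynomial.finite_setOfPred_isRoot hp)
    obtain ⟨z, hz⟩ := hfin.infinite_compl.nonempty
    simp only [Set.mem_compl_iff, Set.mem_union, Set.mem_singleton_iff, Set.mem_ofPred_eq,
      not_or, Polynomial.IsRoot.def] at hz
    exact ⟨z, hz.1, by rw [← hln]; exact hz.2⟩
  have e0 := hFline 0
  have e1 := hFline z₁
  rw [zero_smul, add_zero] at e0
  set y := ev F ![a, b, c] with hy
  have f0 := congrArg (fun x => eval x m₁) e0
  have f1 := congrArg (fun x => eval x m₁) e1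
  simp only [lin_smul h₁] at f0 f1
  rw [hl1] at f1
  set α := D.eval 0 ^ f with hα
  set β := D.eval z₁ ^ f with hβ
  have hβ0 : β ≠ 0 := by
    intro h0
    rw [h0, zero_mul] at f1
    exact mul_ne_zero hz1 hm1 f1
  have hy1 : eval y m₁ ≠ 0 := by
    intro h0
    rw [h0, mul_zero] at f1
    exact mul_ne_zero hz1 hm1 f1
  have hα0 : α ≠ 0 := by
    intro h0
    rw [h0, zero_mul] at f0
    exact mul_ne_zero hh hm1 f0
  -- `α / h(p₀) = β / h(p₁)`
  have g1 : α * eval (p₀ + z₁ • q) h = β * eval p₀ h := by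
    have g2 : eval y m₁ * (α * eval (p₀ + z₁ • q) h - β * eval p₀ h) = 0 := by
      linear_combination (-(eval (p₀ + z₁ • q) h)) * f0 + eval p₀ h * f1
    exact sub_eq_zero.1 ((mul_eq_zero.1 g2).resolve_left hy1)
  have g3 : z₁ • q = 0 := by
    ext i
    have i0 := congrFun e0 i
    have i1 := congrFun e1 i
    simp only [Pi.smul_apply, Pi.add_apply, smul_eq_mul, Pi.zero_apply] at i0 i1 ⊢
    have g4 : α * eval (p₀ + z₁ • q) h * (z₁ * q i) = 0 := by
      linear_combination α * i1 - β * i0 - p₀ i * g1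
    exact (mul_eq_zero.1 g4).resolve_left (mul_ne_zero hα0 hz1)
  rcases smul_eq_zero.1 g3 with g5 | g5
  · exact hz0 g5
  · exact hq0 g5

theorem not_inS [IsAlgClosed K] [CharZero K] {E : MvPolynomial (Fin 3) K}
    (hEu : aeval (Section.u : Fin 3 → MvPolynomial (Fin 2) K) E = 0)
    (hgen : ∀ P, aeval (Section.u : Fin 3 → MvPolynomial (Fin 2) K) P = 0 → E ∣ P) :
    ¬ InS E := by
  classical
  rintro ⟨G, F, hpair, hF, E₀, ⟨-, e, hE₀⟩, ⟨L, hL, hLrel, w, hw⟩, -, hcl⟩
  obtain ⟨⟨m, hG⟩, -, ⟨h, hh0, hFG⟩, ⟨k, hk0, hGF⟩⟩ := id hpair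
  have hFG2 : ∀ p, ev F (ev G p) = eval p h • p := by
    intro p
    ext i
    rw [ev_apply, ← eval_aeval, hFG, map_mul, eval_X]
    rfl
  have hGF2 : ∀ p, ev G (ev F p) = eval p k • p := by
    intro p
    ext i
    rw [ev_apply, ← eval_aeval, hGF, map_mul, eval_X]
    rfl
  -- the points of the curve
  set W : K → Fin 3 → K := fun s => ev Section.u ![s, 1] with hW
  have hWV : ∀ s, W s ∈ V E := by
    intro s
    show eval (W s) E = 0
    rw [hW, ← eval_aeval, hEu, map_zero]
  -- the inverse map sends the curve to `{E₀ = 0}`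
  have hE₀F : ∀ x ∈ V E, eval (ev F x) E₀ = 0 := by
    intro x hx
    rw [← hcl] at hx
    rw [← eval_aeval]
    refine hx (aeval F E₀) (3 * e) (hE₀.aeval F hF) ?_
    rintro _ ⟨p, hp, rfl⟩
    have hp' : eval p E₀ = 0 := hp
    rw [eval_aeval, hFG2, eval_smul hE₀, hp', mul_zero]
  have hGV : ∀ p ∈ V E₀, ev G p ∈ V E := by
    intro p hp
    rw [← hcl]
    intro H d _ hH
    exact hH _ ⟨p, hp, rfl⟩
  -- `k` does not vanish identically on the curve
  have hkU : aeval (Section.U : Fin 3 → Polynomial K) k ≠ 0 := by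
    intro hzero
    have hk1 : aeval (Section.u : Fin 3 → MvPolynomial (Fin 2) K) k * X 1 = 0 := by
      apply MvPolynomial.funext
      intro τ
      rw [map_mul, eval_X, eval_aeval, map_zero]
      by_cases h1 : τ 1 = 0
      · rw [h1, mul_zero]
      have hs : τ = τ 1 • ![τ 0 / τ 1, 1] := by
        ext i
        fin_cases i
        · simp; field_simp
        · simp
      set x := W (τ 0 / τ 1) with hx
      have hxk : eval x k = 0 := by
        have := congrArg (Polynomial.eval (τ 0 / τ 1)) hzero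
        rw [eval_resU, Polynomial.eval_zero] at this
        exact this
      have hux : ev Section.u τ = τ 1 ^ 8 • x := by
        rw [hs, Section.ev_u_smul]
        simp
        rfl
      have h2 := hGF2 (τ 1 ^ 8 • x)
      rw [ev_smul hF, ev_smul hG, hGF2 x, hxk, zero_smul, smul_zero] at h2
      rw [hux]
      rcases smul_eq_zero.1 h2.symm with h3 | h3
      · rw [h3, zero_mul]
      · exfalso
        rw [← hux] at h3
        refine Section.nz τ ?_ h3
        intro h4
        rw [h4] at h1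
        exact h1 rfl
    have hk2 := (mul_eq_zero.1 hk1).resolve_right (X_ne_zero 1)
    obtain ⟨Q, hQ⟩ := hgen k hk2
    have hkV : ∀ x ∈ V E, eval x k = 0 := by
      intro x hx
      have hx' : eval x E = 0 := hx
      rw [hQ, map_mul, hx', zero_mul]
    have hFzero : ∀ p ∈ V E₀, ev F (ev G p) = 0 := by
      intro p hp
      have h1 := hGF2 (ev G p)
      rw [hkV _ (hGV p hp), zero_smul, hFG2, ev_smul hG] at h1
      rcases smul_eq_zero.1 h1 with h2 | h2
      · have h3 : eval p h = 0 := by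
          by_contra hne
          exact pow_ne_zero m hne h2
        rw [hFG2, h3, zero_smul]
      · rw [h2, ev_zero hF (by norm_num)]
    have hFV : ∀ i, ∀ x ∈ V E, eval x (F i) = 0 := by
      intro i x hx
      rw [← hcl] at hx
      refine hx (F i) 3 (hF i) ?_
      rintro _ ⟨p, hp, rfl⟩
      exact congrFun (hFzero p hp) i
    have hF0 : F 0 = 0 := Section.small_degree (by norm_num) (F 0) (hF 0) fun s => hFV 0 _ (hWV s)
    have := hFG 0
    rw [hF0, map_zero] at this
    exact mul_ne_zero hh0 (X_ne_zero 0) this.symm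
  -- the pencil `B`
  have hLeval0 : ∀ j, eval 0 (L j) = 0 := by
    intro j
    have := eval_smul (hL j) 0 0
    rw [smul_zero, pow_one, zero_mul] at this
    exact this
  have hLind : ∀ a b : K, C a * L 0 + C b * L 1 = 0 → a = 0 ∧ b = 0 := by
    intro a b hab
    constructor
    · by_contra ha
      have h1 : L 0 = L 1 * C (-(b / a)) := by
        have h2 : (C a : MvPolynomial (Fin 3) K) * (L 0 - L 1 * C (-(b / a))) = 0 := by
          have h3 : (C a : MvPolynomial (Fin 3) K) * C (-(b / a)) = -C b := by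
            rw [← C_mul, ← C_neg]
            congr 1
            field_simp
          linear_combination hab - L 1 * h3
        exact sub_eq_zero.1 ((mul_eq_zero.1 h2).resolve_left (by simpa using ha))
      exact isUnit_eval (hLrel (L 1) (Dvd.intro _ h1.symm) dvd_rfl) 0 (hLeval0 1)
    · by_contra hb
      have h1 : L 1 = L 0 * C (-(a / b)) := by
        have h2 : (C b : MvPolynomial (Fin 3) K) * (L 1 - L 0 * C (-(a / b))) = 0 := by
          have h3 : (C b : MvPolynomial (Fin 3) K) * C (-(a / b)) = -C a := by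
            rw [← C_mul, ← C_neg]
            congr 1
            field_simp
          linear_combination hab - L 0 * h3
        exact sub_eq_zero.1 ((mul_eq_zero.1 h2).resolve_left (by simpa using hb))
      exact isUnit_eval (hLrel (L 0) dvd_rfl (Dvd.intro _ h1.symm)) 0 (hLeval0 0)
  have hBG : ∀ j p, eval (ev G p) (aeval F (L j)) = eval p h * eval p (L j) := by
    intro j p
    rw [eval_aeval, hFG2, lin_smul (hL j)]
  have hB0 : aeval F (L 0) ≠ 0 := by
    intro h0
    have h1 : h * L 0 = 0 := by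
      apply MvPolynomial.funext
      intro p
      rw [map_mul, ← hBG, h0, map_zero, map_zero]
    have h2 := (mul_eq_zero.1 h1).resolve_left hh0
    have := (hLind 1 0 (by rw [h2]; simp)).1
    exact one_ne_zero this
  have hBhom : ∀ j, (aeval F (L j)).IsHomogeneous 3 := by
    intro j
    have := (hL j).aeval F hF
    simpa using this
  set p : Polynomial K := aeval Section.U (aeval F (L 0)) with hp
  set q : Polynomial K := aeval Section.U (aeval F (L 1)) with hq
  have hpeval : ∀ s, p.eval s = eval (ev F (W s)) (L 0) := by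
    intro s
    rw [hp, eval_resU, eval_aeval]
  have hqeval : ∀ s, q.eval s = eval (ev F (W s)) (L 1) := by
    intro s
    rw [hq, eval_resU, eval_aeval]
  have hp0 : p ≠ 0 := by
    intro h0
    apply hB0
    refine Section.small_degree (by norm_num) _ (hBhom 0) fun s => ?_
    rw [← eval_resU, ← hp, h0, Polynomial.eval_zero]
  obtain ⟨p', q', hp', hq', hgcd⟩ := extract_gcd p q
  set g := gcd p q with hg
  have hcop : IsCoprime p' q' := (gcd_isUnit_iff p' q').1 hgcd
  have hg0 : g ≠ 0 := by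
    intro h0
    rw [h0, zero_mul] at hp'
    exact hp0 hp'
  -- the bad parameters
  set T : Set K := {s | g.IsRoot s} ∪ {s | (aeval Section.U k).IsRoot s} ∪
    {s | eval (ev Section.u ![s, 1]) (Section.A 1) = 0} with hT
  have hTfin : T.Finite := ((Polynomial.finite_setOfPred_isRoot hg0).union
    (Polynomial.finite_setOfPred_isRoot hkU)).union Section.bad_finite
  have hTmem : ∀ s ∉ T, g.eval s ≠ 0 ∧ eval (W s) k ≠ 0 ∧ eval (W s) (Section.A 1) ≠ 0 := by
    intro s hs
    simp only [hT, Set.mem_union, Set.mem_ofPred_eq, not_or, Polynomial.IsRoot.def] at hs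
    refine ⟨hs.1.1, ?_, hs.2⟩
    rw [hW, ← eval_resU]
    exact hs.1.2
  obtain ⟨nw, hwhom⟩ := hw.hom
  -- injectivity
  have hinj : ∀ s₁ s₂ : K, s₁ ∉ T → s₂ ∉ T → ∀ c : K,
      p.eval s₁ = c * p.eval s₂ → q.eval s₁ = c * q.eval s₂ →
      (p.eval s₁ ≠ 0 ∨ q.eval s₁ ≠ 0) → s₁ = s₂ := by
    intro s₁ s₂ hs₁ hs₂ c h1 h2 h3
    obtain ⟨-, hk₁, hA₁⟩ := hTmem s₁ hs₁
    obtain ⟨-, hk₂, -⟩ := hTmem s₂ hs₂
    set y₁ := ev F (W s₁) with hy₁
    set y₂ := ev F (W s₂) with hy₂
    have hb : ev L y₁ = c • ev L y₂ := by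
      ext i
      fin_cases i
      · show eval y₁ (L 0) = c * eval y₂ (L 0)
        rw [← hpeval, ← hpeval]; exact h1
      · show eval y₁ (L 1) = c * eval y₂ (L 1)
        rw [← hqeval, ← hqeval]; exact h2
    have hb1 : ev L y₁ ≠ 0 := by
      intro h0
      rcases h3 with h3 | h3
      · apply h3
        rw [hpeval]
        exact congrFun h0 0
      · apply h3
        rw [hqeval]
        exact congrFun h0 1
    have hb2 : ev L y₂ ≠ 0 := by
      intro h0
      rw [h0, smul_zero] at hb
      exact hb1 hb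
    have hc : c ≠ 0 := by
      rintro rfl
      rw [zero_smul] at hb
      exact hb1 hb
    have hw2 := hw.base_free _ hb2
    have hr₁ := hw.right_inv y₁ (hE₀F _ (hWV s₁))
    have hr₂ := hw.right_inv y₂ (hE₀F _ (hWV s₂))
    rw [hb, ev_smul hwhom] at hr₁
    set z := ev w (ev L y₂) with hz
    have hcn : c ^ nw ≠ 0 := pow_ne_zero _ hc
    have hr₁' : ∀ i j, y₁ i * z j = y₁ j * z i := by
      intro i j
      have h4 := hr₁ i j
      simp only [Pi.smul_apply, smul_eq_mul] at h4
      apply mul_left_cancel₀ hcn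
      linear_combination h4
    obtain ⟨l, hl⟩ := Function.ne_iff.1 hw2
    rw [Pi.zero_apply] at hl
    have hy2l : y₂ l ≠ 0 := by
      intro h0
      have hy20 : y₂ = 0 := by
        ext i
        have h4 := hr₂ i l
        rw [h0, zero_mul] at h4
        exact (mul_eq_zero.1 h4).resolve_right hl
      apply hb2
      rw [hy20, ev_zero hL (by norm_num)]
    have hy12 : y₁ = (y₁ l / y₂ l) • y₂ := by
      ext i
      have h4 := hr₁' i l
      have h5 := hr₂ i l
      simp only [Pi.smul_apply, smul_eq_mul]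
      field_simp
      apply mul_left_cancel₀ hl
      linear_combination y₂ l * h4 - y₁ l * h5
    have hGy := congrArg (ev G) hy12
    rw [ev_smul hG, hy₁, hy₂, hGF2, hGF2] at hGy
    obtain ⟨κ, hκ⟩ : ∃ κ, κ = (ev F (W s₁) l / ev F (W s₂) l) ^ m := ⟨_, rfl⟩
    rw [← hκ] at hGy
    apply Section.inj_param (c := (eval (W s₁) k)⁻¹ * (κ * eval (W s₂) k)) hA₁
    show W s₁ = ((eval (W s₁) k)⁻¹ * (κ * eval (W s₂) k)) • W s₂
    have h6 : W s₁ = (eval (W s₁) k)⁻¹ • (eval (W s₁) k • W s₁) := by
      rw [smul_smul, inv_mul_cancel₀ hk₁, one_smul]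
    rw [hGy, smul_smul, smul_smul] at h6
    rw [mul_assoc] at h6
    exact h6
  have hpe : ∀ s, p.eval s = g.eval s * p'.eval s := fun s => by
    rw [hp', Polynomial.eval_mul]
  have hqe : ∀ s, q.eval s = g.eval s * q'.eval s := fun s => by
    rw [hq', Polynomial.eval_mul]
  -- the degrees of `p'`, `q'` are at most one
  have hdeg1 : max p'.natDegree q'.natDegree ≤ 1 := by
    by_contra hlt
    push Not at hlt
    obtain ⟨S, hS, hS'⟩ := Curve.distinct_roots hcop (by omega) hTfin
    obtain ⟨c, hc⟩ := hS.infinite_compl.nonempty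
    obtain ⟨Z, hZ, hZ'⟩ := hS' c hc
    obtain ⟨s₁, hs₁, s₂, hs₂, hne⟩ := Finset.one_lt_card.1 (by rw [hZ]; exact hlt : 1 < Z.card)
    obtain ⟨a1, a2, a3⟩ := hZ' s₁ hs₁
    obtain ⟨b1, b2, b3⟩ := hZ' s₂ hs₂
    have g1 := (hTmem s₁ a3).1
    have g2 := (hTmem s₂ b3).1
    apply hne
    apply hinj s₁ s₂ a3 b3 (g.eval s₁ * q'.eval s₁ / (g.eval s₂ * q'.eval s₂))
    · rw [hpe, hpe, a1, b1]
      field_simp
    · rw [hqe, hqe]
      field_simp
    · right
      rw [hqe]
      exact mul_ne_zero g1 a2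
  have hTinf : ∀ s : K, ∃ s' ∉ T, s' ≠ s := by
    intro s
    obtain ⟨s', hs'⟩ := (hTfin.union (Set.finite_singleton s)).infinite_compl.nonempty
    simp only [Set.mem_compl_iff, Set.mem_union, Set.mem_singleton_iff, not_or] at hs'
    exact ⟨s', hs'.1, hs'.2⟩
  obtain ⟨α, β, hα⟩ : ∃ α β : K, p' = Polynomial.C α * Polynomial.X + Polynomial.C β :=
    Polynomial.exists_eq_X_add_C_of_natDegree_le_one ((le_max_left _ _).trans hdeg1)
  obtain ⟨γ, δ, hγ⟩ : ∃ γ δ : K, q' = Polynomial.C γ * Polynomial.X + Polynomial.C δ :=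
    Polynomial.exists_eq_X_add_C_of_natDegree_le_one ((le_max_right _ _).trans hdeg1)
  have hαγ : ¬ (α = 0 ∧ γ = 0) := by
    rintro ⟨rfl, rfl⟩
    obtain ⟨s₁, hs₁, -⟩ := hTinf 0
    obtain ⟨s₂, hs₂, hne⟩ := hTinf s₁
    have g1 := (hTmem s₁ hs₁).1
    have g2 := (hTmem s₂ hs₂).1
    apply hne
    symm
    have hpc : ∀ s, p'.eval s = β := by intro s; rw [hα]; simp
    have hqc : ∀ s, q'.eval s = δ := by intro s; rw [hγ]; simp
    apply hinj s₁ s₂ hs₁ hs₂ (g.eval s₁ / g.eval s₂)
    · rw [hpe, hpe, hpc, hpc]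
      field_simp
    · rw [hqe, hqe, hqc, hqc]
      field_simp
    · rw [hpe, hqe, hpc, hqc]
      by_contra hcon
      push Not at hcon
      have hβ : β = 0 := (mul_eq_zero.1 hcon.1).resolve_left g1
      have hδ : δ = 0 := (mul_eq_zero.1 hcon.2).resolve_left g1
      obtain ⟨a, b, hab⟩ := hcop
      rw [hα, hγ, hβ, hδ] at hab
      simp at hab
  have hdet : α * δ - β * γ ≠ 0 := by
    intro hdet
    obtain ⟨a, b, hab⟩ := hcop
    -- a common root
    by_cases hα0 : α = 0
    · have hγ0 : γ ≠ 0 := fun h => hαγ ⟨hα0, h⟩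
      have hβ0 : β = 0 := by
        rw [hα0, zero_mul, zero_sub, neg_eq_zero] at hdet
        exact (mul_eq_zero.1 hdet).resolve_right hγ0
      have := congrArg (Polynomial.eval (-δ / γ)) hab
      rw [hα, hγ, hα0, hβ0] at this
      simp at this
      field_simp at this
      simp at this
    · have := congrArg (Polynomial.eval (-β / α)) hab
      rw [hα, hγ] at this
      simp only [Polynomial.eval_add, Polynomial.eval_mul, Polynomial.eval_C, Polynomial.eval_X,
        Polynomial.eval_one] at this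
      have e1 : α * (-β / α) + β = 0 := by field_simp; ring
      have e2 : γ * (-β / α) + δ = 0 := by
        field_simp
        linear_combination hdet
      rw [e1, e2] at this
      simp at this
  -- the relation between the pencils
  have hP6 : aeval F (L 0) * (C γ * Section.A 0 + C δ * Section.A 1) -
      aeval F (L 1) * (C α * Section.A 0 + C β * Section.A 1) = 0 := by
    have hlin : ∀ a b : K, (C a * Section.A 0 + C b * Section.A 1 :
        MvPolynomial (Fin 3) K).IsHomogeneous 3 := by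
      intro a b
      exact ((Section.A_hom 0).C_mul a).add ((Section.A_hom 1).C_mul b)
    refine Section.small_degree (d := 6) (by norm_num) _
      (((hBhom 0).mul (hlin γ δ)).sub ((hBhom 1).mul (hlin α β))) fun s => ?_
    have h1 := Section.A_u ![s, 1]
    simp only [Matrix.cons_val_zero, Matrix.cons_val_one, mul_one] at h1
    simp only [map_sub, map_mul, map_add, eval_C]
    have hpW : eval (ev Section.u ![s, 1]) (aeval F (L 0)) = p.eval s := by rw [hp, eval_resU]
    have hqW : eval (ev Section.u ![s, 1]) (aeval F (L 1)) = q.eval s := by rw [hq, eval_resU]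
    rw [hpW, hqW, hpe, hqe, h1, hα, hγ]
    simp only [Polynomial.eval_add, Polynomial.eval_mul, Polynomial.eval_C, Polynomial.eval_X]
    ring
  have hrel0 : ∀ x, eval x h * (eval x (L 0) * (γ * eval (ev G x) (Section.A 0) +
      δ * eval (ev G x) (Section.A 1)) - eval x (L 1) * (α * eval (ev G x) (Section.A 0) +
      β * eval (ev G x) (Section.A 1))) = 0 := by
    intro x
    have := congrArg (eval (ev G x)) hP6
    simp only [map_sub, map_mul, map_add, eval_C, map_zero] at this
    rw [hBG, hBG] at this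
    linear_combination this
  let A' : Fin 2 → MvPolynomial (Fin 3) K := Section.A
  have hrel1 : L 0 * (C γ * aeval G (A' 0) + C δ * aeval G (A' 1)) -
      L 1 * (C α * aeval G (A' 0) + C β * aeval G (A' 1)) = 0 := by
    have h1 : h * (L 0 * (C γ * aeval G (A' 0) + C δ * aeval G (A' 1)) -
      L 1 * (C α * aeval G (A' 0) + C β * aeval G (A' 1))) = 0 := by
      apply MvPolynomial.funext
      intro x
      simp only [map_sub, map_mul, map_add, eval_C, map_zero, eval_aeval]
      exact hrel0 x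
    exact (mul_eq_zero.1 h1).resolve_left hh0
  refine pencil_not_in_net hpair (C β * L 1 - C δ * L 0) (C γ * L 0 - C α * L 1)
    (((hL 1).C_mul β).sub ((hL 0).C_mul δ)) (((hL 0).C_mul γ).sub ((hL 1).C_mul α)) ?_ ?_ ?_ ?_
  · intro h0
    have h1 := hLind (-δ) β (by rw [C_neg]; linear_combination h0)
    apply hdet
    rw [h1.2, neg_eq_zero.1 h1.1]
    ring
  · intro h0
    have h1 := hLind γ (-α) (by rw [C_neg]; linear_combination h0)
    exact hαγ ⟨neg_eq_zero.1 h1.2, h1.1⟩
  · intro h0
    have h1 := hLind (γ - δ) (β - α) (by rw [C_sub, C_sub]; linear_combination h0)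
    apply hdet
    rw [sub_eq_zero.1 h1.1, sub_eq_zero.1 h1.2]
    ring
  · intro x
    have h1 := congrArg (eval x) hrel1
    simp only [A', map_sub, map_mul, map_add, eval_C, map_zero, eval_aeval, Section.eval_A0,
      Section.eval_A1, ev_apply] at h1
    simp only [map_sub, map_mul, eval_C]
    linear_combination h1

/-- For every algebraically closed field of characteristic zero there is a plane curve which is
parameterizable by cubics and does not belong to `𝒮`. -/
theorem result (K : Type) [Field K] [IsAlgClosed K] [CharZero K] :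
    ∃ E : MvPolynomial (Fin 3) K, IsCurve E ∧ ParamBy 3 E ∧ ¬ InS E := by
  obtain ⟨E, hirr, hhom, hEu, hgen⟩ := Section.exists_E (K := K)
  exact ⟨E, ⟨hirr, hhom⟩, paramBy_three hEu hgen, not_inS hEu hgen⟩

end Pool.Agent.Results.MP_87683a_ag.NotCremona
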